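import Pool.Agent.Lib.lead.CXBase

namespace Pool.Agent.Results.MP_307b22_lc.Hard
open Pool.Agent.Lib.CX Finset

/-- resolving broadcast: the truncated distances `min (d x z) (f z + 1)` separate all pairs -/
def Resolving {n : ℕ} (G : SimpleGraph (Fin n)) (f : Fin n → ℕ) : Prop :=
  ∀ x y, x ≠ y → ∃ z, 0 < f z ∧ min (G.edist x z) (f z + 1) ≠ min (G.edist y z) (f z + 1)

/-- broadcast dimension -/
noncomputable def bdim {n : ℕ} (G : SimpleGraph (Fin n)) : ℕ := sInf {s | ∃ f, Resolving G f ∧ ∑ v, f v = s}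

theorem res_iff {n : ℕ} {G : SimpleGraph (Fin n)} (w : Fin n) (hw : ∀ v, v ≠ w → G.Adj v w) (f : Fin n → ℕ) :
    Resolving G f ↔ ∀ x y, x ≠ y → ∃ z, 0 < f z ∧ (x = z ∨ y = z ∨ ¬ (G.Adj x z ↔ G.Adj y z)) := by
  classical
  have h1 : ∀ x z, G.edist x z = if x = z then 0 else if G.Adj x z then 1 else 2 := fun x z => by
    split_ifs with a b
    · simp [a]
    · exact SimpleGraph.edist_eq_one_iff_adj.2 b
    · have c : x ≠ w := fun c => b (c ▸ (hw z (c ▸ Ne.symm a)).symm)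
      have d : z ≠ w := fun d => b (d ▸ hw x c)
      refine le_antisymm (G.edist_triangle (v := w) |>.trans ?_) ?_
      · rw [SimpleGraph.edist_eq_one_iff_adj.2 (hw x c), SimpleGraph.edist_eq_one_iff_adj.2 (hw z d).symm]; rfl
      · exact Order.add_one_le_of_lt (x := 1) ((Order.one_le_iff_ne_zero.2 (mt SimpleGraph.edist_eq_zero_iff.1 a)).lt_of_ne'
          (mt SimpleGraph.edist_eq_one_iff_adj.1 b))
  refine forall₃_congr fun x y h => exists_congr fun z => and_congr_right fun hz => ?_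
  have h2 : ∀ x, G.edist x z ≤ f z + 1 := fun x => by
    have : (2 : ℕ∞) ≤ f z + 1 := by norm_cast; omega
    rw [h1]; split_ifs
    exacts [zero_le, le_add_self, this]
  rw [min_eq_left (h2 x), min_eq_left (h2 y), h1, h1]
  split_ifs <;> simp_all

theorem bdim_le {n : ℕ} {G : SimpleGraph (Fin n)} (w : Fin n) (hw : ∀ v, v ≠ w → G.Adj v w) (k : ℕ) : bdim G ≤ k ↔
    ∃ T : Finset (Fin n), T.card ≤ k ∧ ∀ x y, x ≠ y → ∃ z ∈ T, x = z ∨ y = z ∨ ¬ (G.Adj x z ↔ G.Adj y z) := by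
  constructor
  · intro h
    obtain ⟨f, h1, h2⟩ : bdim G ∈ {s | ∃ f, Resolving G f ∧ ∑ v, f v = s} :=
      Nat.sInf_mem ⟨_, 1, (res_iff w hw 1).2 fun x y _ => ⟨x, by simp⟩, rfl⟩
    refine ⟨univ.filter fun v => 0 < f v, le_trans ?_ (h2.le.trans h), by simpa using (res_iff w hw f).1 h1⟩
    rw [card_filter]
    exact sum_le_sum fun v _ => by split_ifs <;> omega
  · rintro ⟨T, h1, h2⟩
    refine le_trans (Nat.sInf_le ⟨fun v => if v ∈ T then 1 else 0, (res_iff w hw _).2 fun x y h => ?_, rfl⟩) (by simpa)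
    obtain ⟨z, a, b⟩ := h2 x y h
    exact ⟨z, by simp [a], b⟩

def In (n m : ℕ) (u : ℕ × ℕ) : Prop := u.1 ≤ n + m ∧ u.2 ≤ 3 ∧ (u.2 = 3 → n ≤ u.1 ∧ u.1 < n + m)
instance (n m u) : Decidable (In n m u) := by unfold In; infer_instance
def R (n : ℕ) (es : List (ℕ × ℕ)) (u v : ℕ × ℕ) : Prop :=
  (u.1 = v.1 ∧ u.2 ≤ 1) ∨ (u.1 = n + es.length ∧ (u.2 = 2 ∨ 2 ≤ v.2)) ∨ (u.2 = 2 ∧ v.2 = 2 ∧ n ≤ v.1 ∧ v.1 < n + es.length ∧
    (u.1 = (es.getD (v.1 - n) (0, 0)).1 ∨ u.1 = (es.getD (v.1 - n) (0, 0)).2))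
instance (n es u v) : Decidable (R n es u v) := by unfold R; infer_instance
def vs (n m : ℕ) : List (ℕ × ℕ) := (List.range (n + m + 1) ×ˢ List.range 4).filter (In n m)
def gr (n : ℕ) (es : List (ℕ × ℕ)) : Gr :=
  mkGr (vs n es.length) ((vs n es.length ×ˢ vs n es.length).filter fun e => R n es e.1 e.2)

theorem mem_vs {n m u} : u ∈ vs n m ↔ In n m u := by
  obtain ⟨a, b⟩ := u
  simp only [vs, List.mem_filter, List.mem_product, List.mem_range, decide_eq_true_eq, In]
  omega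

theorem gr_le (n es k) : bdim (gr n es).G ≤ k ↔ ∃ T : Finset (ℕ × ℕ), T.card ≤ k ∧
    ∀ x, In n es.length x → ∀ y, In n es.length y → x ≠ y → ∃ z ∈ T, In n es.length z ∧
      (x = z ∨ y = z ∨ ¬ (R n es x z ∨ R n es z x ↔ R n es y z ∨ R n es z y)) := by
  obtain ⟨e, he⟩ : ∃ e : Fin (gr n es).n ≃ {x | x ∈ vs n es.length},
      ∀ u v, (gr n es).G.Adj u v ↔ u ≠ v ∧ (R n es (e u) (e v) ∨ R n es (e v) (e u)) := ⟨mkGrEquiv _ _, fun u v => by
    have h1 := mkGr_arc _ _ u v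
    have h2 := mkGr_arc _ _ v u
    have h3 : (mkGrEquiv _ _ u).1 ∈ vs n es.length := (mkGrEquiv _ _ u).2
    have h4 : (mkGrEquiv _ _ v).1 ∈ vs n es.length := (mkGrEquiv _ _ v).2
    rw [Gr.G, SimpleGraph.fromRel_adj]
    rw [Gr.arc] at h1 h2
    exact and_congr_right fun _ => or_congr (h1.trans (by simp [h3, h4]; rfl)) (h2.trans (by simp [h3, h4]; rfl))⟩
  rw [bdim_le (e.symm ⟨(n + es.length, 2), mem_vs.2 (by simp [In])⟩) fun v h => (he _ _).2 ⟨h, .inr (by simp [R])⟩]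
  constructor
  · rintro ⟨T, h1, h2⟩
    refine ⟨T.image fun v => (e v).1, card_image_le.trans h1, fun x hx y hy h => ?_⟩
    obtain ⟨z, a, b⟩ := h2 (e.symm ⟨x, mem_vs.2 hx⟩) (e.symm ⟨y, mem_vs.2 hy⟩) (by simpa)
    refine ⟨_, mem_image_of_mem _ a, mem_vs.1 (e z).2, ?_⟩
    simp only [he, ne_eq, Equiv.symm_apply_eq, Subtype.ext_iff, Equiv.apply_symm_apply] at b
    by_contra c
    simp_all
  · rintro ⟨T, h1, h2⟩
    refine ⟨univ.filter fun v => (e v).1 ∈ T, le_trans (card_le_card_of_injOn (fun v => (e v).1) (fun v hv => by simpa using hv)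
      fun u _ v _ h => e.injective (Subtype.ext h)) h1, fun x y h => ?_⟩
    obtain ⟨z, a, b, c⟩ := h2 _ (mem_vs.1 (e x).2) _ (mem_vs.1 (e y).2) fun c => h (e.injective (Subtype.ext c))
    refine ⟨e.symm ⟨z, mem_vs.2 b⟩, by simpa, ?_⟩
    simp only [he, ne_eq, Equiv.eq_symm_apply, Subtype.ext_iff, Equiv.apply_symm_apply]
    by_cases d : (e x).1 = z <;> by_cases d' : (e y).1 = z <;> simp only [d, d'] at c ⊢ <;> simpa using c

theorem R0 {n es x c} : (R n es x (c, 0) ∨ R n es (c, 0) x) ↔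
    x.1 = c ∨ (x.1 = n + es.length ∧ x.2 = 2) ∨ (c = n + es.length ∧ 2 ≤ x.2) := by
  simp only [R]; omega

theorem key (n : List Unit) (es : List (ℕ × ℕ)) (k : ℕ) (h1 : ∀ e ∈ es, e.1 < e.2 ∧ e.2 < n.length) :
    (∃ S : Finset ℕ, (∀ x ∈ S, x < n.length) ∧ (∀ e ∈ es, e.1 ∈ S ∨ e.2 ∈ S) ∧ S.card ≤ k) ↔
      bdim (gr (n.length + 2) es).G ≤ k + (n.length + 2 + es.length + 1) := by
  have hm : ∀ u < es.length, es.getD u (0, 0) ∈ es := fun u hu => by
    rw [List.getD_eq_getElem _ _ hu]; exact List.getElem_mem _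
  rw [gr_le]
  obtain ⟨N, hN⟩ : ∃ N, N = n.length + 2 := ⟨_, rfl⟩
  rw [← hN]
  constructor
  · rintro ⟨S, s1, s2, s3⟩
    refine ⟨S.image (·, 2) ∪ (range (N + es.length + 1)).image (·, 0), (card_union_le _ _).trans
      (add_le_add (card_image_le.trans s3) (card_image_le.trans (by simp))), fun x hx y hy h => ?_⟩
    wlog hxy : x.2 ≤ y.2 generalizing x y
    · obtain ⟨z, a, b, c⟩ := this y hy x hx h.symm (by omega)
      exact ⟨z, a, b, by rwa [or_left_comm, iff_comm]⟩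
    by_contra H
    simp only [not_exists, not_and, not_or, not_not] at H
    have a1 := fun c (hc : c ≤ N + es.length) => H (c, 0) (by simp; omega) (by simp [In, hc])
    simp only [R0, Prod.ext_iff, In, ne_eq] at a1 hx hy h
    have a2 := (a1 _ le_rfl).2.2
    have a3 := (a1 0 (by omega)).2.2
    have a4 := (a1 1 (by omega)).2.2
    have a5 := a1 _ hx.1
    have a6 := a1 _ hy.1
    clear a1
    have a7 : ¬ (x.1 = N + es.length ∧ x.2 = 2) ∧ ¬ (y.1 = N + es.length ∧ y.2 = 2) := by clear a2 a5 a6; omega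
    clear a3 a4
    have a8 : x.1 = y.1 := by omega
    have a9 : x.2 = 2 ∧ y.2 = 3 := by omega
    have b := h1 _ (hm (x.1 - N) (by omega))
    clear a2 a5 a6
    rcases s2 _ (hm (x.1 - N) (by omega)) with c | c <;>
    · have := (H _ (mem_union_left _ (mem_image_of_mem (·, 2) c)) (by simp only [In]; omega)).2.2.1
        (.inr (.inr (.inr (by dsimp only; omega))))
      simp only [R] at this
      omega
  · rintro ⟨T, t1, t2⟩
    have a1 := card_le_card_of_surjOn Prod.fst (s := T.filter (·.2 ≤ 1)) (t := range (N + es.length + 1)) fun c hc => by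
      have hc : c < N + es.length + 1 := by simpa using hc
      obtain ⟨z, a, -, b⟩ := t2 (c, 0) (by simp only [In]; omega) (c, 1) (by simp only [In]; omega) (by simp)
      have : z.1 = c ∧ z.2 ≤ 1 := by
        simp only [Prod.ext_iff, R] at b
        omega
      exact ⟨z, mem_coe.2 (mem_filter.2 ⟨a, this.2⟩), this.1⟩
    refine ⟨((T.filter fun v => ¬ v.2 ≤ 1).image fun v => if v.1 < N then v.1 else (es.getD (v.1 - N) (0, 0)).1).filter
      (· < n.length), fun x hx => (mem_filter.1 hx).2, fun e he => ?_, (card_filter_le _ _).trans (card_image_le.trans ?_)⟩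
    · obtain ⟨j, hj, rfl⟩ := List.getElem_of_mem he
      have a2 := h1 _ he
      have a3 : es.getD j (0, 0) = es[j] := List.getD_eq_getElem _ _ hj
      obtain ⟨z, a, c, b⟩ := t2 (N + j, 2) (by simp only [In]; omega) (N + j, 3) (by simp only [In]; omega) (by simp)
      have : ¬ z.2 ≤ 1 ∧ (z.1 = N + j ∨ z.1 = es[j].1 ∨ z.1 = es[j].2) := by
        have := fun h => h1 _ (hm (z.1 - N) h)
        simp only [Prod.ext_iff, R, In, Nat.add_sub_cancel_left, a3] at b c
        omega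
      simp only [mem_filter, mem_image]
      rcases this.2 with h | h | h
      · exact .inl ⟨⟨z, ⟨a, this.1⟩, by rw [if_neg (by omega), h, Nat.add_sub_cancel_left, a3]⟩, by omega⟩
      · exact .inl ⟨⟨z, ⟨a, this.1⟩, by rw [if_pos (by omega), h]⟩, by omega⟩
      · exact .inr ⟨⟨z, ⟨a, this.1⟩, by rw [if_pos (by omega), h]⟩, by omega⟩
    · have a2 := card_filter_add_card_filter_not (s := T) (·.2 ≤ 1)
      rw [card_range] at a1
      omega

set_option synthInstance.maxSize 2000 in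
theorem result : NPHard fun a : Gr × ℕ => bdim a.1.G ≤ a.2 :=
  NPHard.of_vc (fun a => (gr (a.1.length + 2) a.2.1, a.2.2 + (a.1.length + 2 + a.2.1.length + 1)))
    (by unfold gr vs R In; fun_prop) fun n es k h1 _ _ => key n es k h1

end Pool.Agent.Results.MP_307b22_lc.Hard
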